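import Pool.Agent.Helper29.UG.Props
import Pool.Agent.Helper38.RC.TComp

/-!
# MP_b55b7c_an: packet UG-TCompG
-/

open scoped ENNReal NNReal InnerProductSpace ComplexOrder
open Filter Topology

attribute [-instance] CStarMatrix.instAlgebra CStarMatrix.instModule CStarMatrix.instSMul
  CStarMatrix.instMulAction CStarMatrix.instDistribMulAction

set_option linter.unusedSectionVars false

noncomputable section
namespace RC
universe u

theorem tCompGP (h1 : TComp0GP.{u}) (hEn : EntryP.{u}) (hEM : EHMatP.{u}) (hDM : DomInvMatP.{u})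
    (h3 : RedDnP.{u}) (h4 : RedUpP.{u}) (h5 : FlatP.{u}) (h6 : QMonoP.{u}) (h7 : QBasicP.{u}) :
    TCompGP.{u} := by
  intro A _ _ _ G α C hEH hC hD ι κ _ _ _ _ a b ha hb hab δ hδ
  rcases isEmpty_or_nonempty ι with hι | hι
  · refine ⟨0, 0, le_rfl, ?_, ?_⟩
    · apply le_of_eq
      ext i j
      exact (hι.false i).elim
    · intro σ
      have := (h7 A σ ι 0 le_rfl).2.2.1
      rw [Fintype.card_eq_zero] at this
      exact lt_of_le_of_lt (by simpa using this) hδ
  · have hν : Nonempty (ι ⊕ κ) := ⟨Sum.inl hι.some⟩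
    let R : CStarMatrix (ι ⊕ κ) ι A :=
      CStarMatrix.ofMatrix (Matrix.of fun p i => if p = Sum.inl i then 1 else 0)
    let S : CStarMatrix (ι ⊕ κ) κ A :=
      CStarMatrix.ofMatrix (Matrix.of fun p i => if p = Sum.inr i then 1 else 0)
    have hR : R.conjTranspose * R = 1 := by
      ext i j
      rw [CStarMatrix.mul_apply]
      simp [R, CStarMatrix.conjTranspose_apply, CStarMatrix.one_apply]
      by_cases hij : i = j
      · subst hij; simp
      · simp [hij, Ne.symm hij]
    have hS : S.conjTranspose * S = 1 := by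
      ext i j
      rw [CStarMatrix.mul_apply]
      simp [S, CStarMatrix.conjTranspose_apply, CStarMatrix.one_apply]
      by_cases hij : i = j
      · subst hij; simp
      · simp [hij, Ne.symm hij]
    obtain ⟨β, hβ1, hβ2⟩ := hEn A G α (ι ⊕ κ)
    have hE' : EHalf (CStarMatrix (ι ⊕ κ) (ι ⊕ κ) A) β := hEM A G α hEH (ι ⊕ κ) β hβ1
    have hD' : DomInv (CStarMatrix (ι ⊕ κ) (ι ⊕ κ) A) β (C * Fintype.card (ι ⊕ κ)) :=
      hDM A G α C hC hD (ι ⊕ κ) β hβ2
    have hcard : (0 : ℝ) < Fintype.card (ι ⊕ κ) := by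
      exact_mod_cast Fintype.card_pos
    have hcard1 : (1 : ℝ) ≤ Fintype.card (ι ⊕ κ) := by
      exact_mod_cast Fintype.card_pos
    have hδ' : 0 < δ / Fintype.card (ι ⊕ κ) := by positivity
    obtain ⟨y', c', hc', hle, hdim⟩ := h1 (CStarMatrix (ι ⊕ κ) (ι ⊕ κ) A) G β
      (C * Fintype.card (ι ⊕ κ)) hE' (mul_nonneg hC hcard.le) hD'
      (R * a * R.conjTranspose) (S * b * S.conjTranspose) (cm_conj_nonneg R ha)
      (cm_conj_nonneg S hb) (by
        intro τ
        obtain ⟨σ, hσ⟩ := h3 A (ι ⊕ κ) τ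
        rw [hσ Unit _ (one1_nonneg38 (cm_conj_nonneg R ha)),
          hσ Unit _ (one1_nonneg38 (cm_conj_nonneg S hb)),
          dim_flat38 h5 h6 σ R hR a ha, dim_flat38 h5 h6 σ S hS b hb]
        exact div_lt_div_of_pos_right (hab σ) hcard) _ hδ'
    refine ⟨S.conjTranspose * y' * R, R.conjTranspose * c' * R, cm_conj_nonneg' R hc', ?_, ?_⟩
    · have h8 := cm_conj_le' R hle
      have e1 : R.conjTranspose * (R * a * R.conjTranspose) * R = a := by
        rw [cm_assoc R, ← cm_assoc R.conjTranspose R, hR, cm_one_mul, cm_assoc, hR, cm_mul_one]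
      have e2 : R.conjTranspose * (star y' * (S * b * S.conjTranspose) * y' + c' +
          (δ / Fintype.card (ι ⊕ κ)) • (1 : CStarMatrix (ι ⊕ κ) (ι ⊕ κ) A)) * R =
          (S.conjTranspose * y' * R).conjTranspose * b * (S.conjTranspose * y' * R) +
          R.conjTranspose * c' * R +
          (δ / Fintype.card (ι ⊕ κ)) • (1 : CStarMatrix ι ι A) := by
        have a1 : ∀ x y : CStarMatrix (ι ⊕ κ) (ι ⊕ κ) A, R.conjTranspose * (x + y) * R =
          R.conjTranspose * x * R + R.conjTranspose * y * R := by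
          intro x y
          rw [show R.conjTranspose * (x + y) = R.conjTranspose * x + R.conjTranspose * y from
            Matrix.mul_add _ _ _]
          exact Matrix.add_mul _ _ _
        rw [a1, a1, cm_mul_rsmul, cm_rsmul_mul, cm_mul_one, hR]
        congr 2
        rw [cm_conj_mul, cm_conj_mul, cm_conj_conj, ← cm_star_eq]
        simp only [cm_assoc]
      rw [e1, e2] at h8
      refine h8.trans ?_
      gcongr
      exact div_le_self hδ.le hcard1
    · intro σ
      obtain ⟨ω, hω⟩ := h4 A (ι ⊕ κ) σ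
      have hn : 0 ≤ one1 c' := one1_nonneg38 hc'
      have hn2 : 0 ≤ flat (one1 c') := ((h5 A (ι ⊕ κ) Unit Unit _ (one1 c')).1).1 hn
      have h9 : σ.dim (R.conjTranspose * c' * R) ≤ σ.dim (flat (one1 c')) := by
        refine h6 A σ _ _ _ _ (cm_conj_nonneg' R hc') hn2 ?_
        intro ε hε
        refine ⟨(up38 R).conjTranspose, ?_⟩
        have : (up38 R).conjTranspose * flat (one1 c') * (up38 R).conjTranspose.conjTranspose =
            R.conjTranspose * c' * R := by
          rw [cm_conj_conj, cm_assoc, flat_one1_mul, up38_conj_mul, cm_assoc]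
        rw [this, sub_self, norm_zero]; exact hε
      have h10 := hdim ω
      rw [hω Unit _ hn] at h10
      have h11 := (div_lt_div_iff_of_pos_right hcard).1 h10
      exact lt_of_le_of_lt h9 h11

end RC
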